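import Mathlib
import Pool.Agent.H160R2.HF.Defs
import Pool.Agent.H160R2.HF.Hoffman
import Pool.Agent.TH60.HE.Contract

/-! # Flows with values in `ZMod 2 × ℤ` and `1/2`-flow-pairs -/

set_option autoImplicit false
set_option linter.unusedSectionVars false

namespace Pool.Agent.Q234.HF
open Finset Pool.Agent.H160R2.HF Pool.Agent.H160R2.HF.OrGraph

variable {V E : Type*} [Fintype V] [Fintype E] [DecidableEq V] [DecidableEq E]
variable {A : Type*} [AddCommGroup A]

/-- the net outflow at `v` -/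
def gn (G : OrGraph V E) (ψ : E → A) (v : V) : A :=
  ∑ e, ((if G.t e = v then ψ e else 0) - (if G.h e = v then ψ e else 0))

lemma gn_add (G : OrGraph V E) (ψ χ : E → A) (v : V) :
    gn G (fun e => ψ e + χ e) v = gn G ψ v + gn G χ v := by
  unfold gn
  rw [← Finset.sum_add_distrib]
  refine Finset.sum_congr rfl fun e _ => ?_
  split_ifs <;> module

lemma gn_single (G : OrGraph V E) (e₀ : E) (c : A) (v : V) :
    gn G (fun e => if e = e₀ then c else 0) v =
      (if G.t e₀ = v then c else 0) - (if G.h e₀ = v then c else 0) := by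
  unfold gn
  rw [Finset.sum_eq_single e₀]
  · simp
  · intro e _ he
    simp [he]
  · intro h
    exact absurd (Finset.mem_univ _) h

lemma sum_gn (G : OrGraph V E) (ψ : E → A) : ∑ v, gn G ψ v = 0 := by
  unfold gn
  rw [Finset.sum_comm]
  refine Finset.sum_eq_zero fun e _ => ?_
  rw [Finset.sum_sub_distrib, Finset.sum_ite_eq, Finset.sum_ite_eq]
  simp

lemma mem_cut {G : OrGraph V E} {X : Finset V} {e : E} :
    e ∈ G.cut X ↔ ¬ (G.t e ∈ X ↔ G.h e ∈ X) := by
  unfold OrGraph.cut
  simp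

/-- the net outflow of a set -/
lemma sum_gn_set (G : OrGraph V E) (ψ : E → A) (X : Finset V) :
    ∑ v ∈ X, gn G ψ v = ∑ e ∈ G.cut X, (if G.t e ∈ X then ψ e else - ψ e) := by
  unfold gn
  rw [Finset.sum_comm]
  unfold OrGraph.cut
  rw [Finset.sum_filter]
  refine Finset.sum_congr rfl fun e _ => ?_
  rw [Finset.sum_sub_distrib, Finset.sum_ite_eq, Finset.sum_ite_eq]
  by_cases h1 : G.t e ∈ X <;> by_cases h2 : G.h e ∈ X <;> simp [h1, h2]

/-- bridges are the edge cuts with one edge -/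
lemma bridgeless_iff (G : OrGraph V E) :
    G.Bridgeless ↔ ∀ (X : Finset V) (e : E), G.cut X ≠ {e} := by
  classical
  constructor
  · intro hG X e he
    obtain ⟨φ, h1, h2⟩ := Pool.Agent.TH60.HE.exists_flow G hG e
    have h1' : ∀ v, gn G φ v = 0 := (Pool.Agent.TH60.HE.isFlow_iff G φ).1 h1
    have h3 := sum_gn_set G φ X
    rw [he, Finset.sum_singleton, h2, Finset.sum_eq_zero (fun v _ => h1' v)] at h3
    split_ifs at h3 <;> omega
  · intro hG e
    by_contra hcon
    apply hG (univ.filter fun w => (G.sub (univ.erase e)).Reachable (G.t e) w) e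
    ext x
    rw [mem_cut, mem_singleton, mem_filter, mem_filter]
    constructor
    · intro h
      by_contra hx
      apply h
      by_cases hl : G.t x = G.h x
      · rw [hl]
      have h5 : (G.sub (univ.erase e)).Adj (G.t x) (G.h x) := by
        unfold OrGraph.sub
        rw [SimpleGraph.fromRel_adj]
        exact ⟨hl, Or.inl ⟨x, by simpa using hx, rfl, rfl⟩⟩
      exact ⟨fun h => ⟨mem_univ _, h.2.trans h5.reachable⟩,
        fun h => ⟨mem_univ _, h.2.trans h5.symm.reachable⟩⟩
    · rintro rfl h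
      exact hcon (h.1 ⟨mem_univ _, SimpleGraph.Reachable.refl _⟩).2

/-- the values of pairs, the first modulo two -/
abbrev P := ZMod 2 × ℤ

/-- admissible values -/
def Ok (a : P) : Prop := |a.2| ≤ 3 ∧ (a.1 = 0 → 2 ≤ |a.2|)

instance : DecidablePred Ok := fun a => by unfold Ok; infer_instance

lemma ok_neg {a : P} (h : Ok a) : Ok (-a) := by
  unfold Ok at *
  simp only [Prod.snd_neg, Prod.fst_neg, abs_neg, neg_eq_zero]
  exact h

/-- a signed value -/
def sg (s : Prop) [Decidable s] {A : Type*} [AddCommGroup A] (a : A) : A := if s then a else -a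

lemma ok_sg (s : Prop) [Decidable s] {a : P} (h : Ok a) : Ok (sg s a) := by
  unfold sg
  split_ifs
  · exact h
  · exact ok_neg h

lemma sg_add (s : Prop) [Decidable s] (a b : A) : sg s (a + b) = sg s a + sg s b := by
  unfold sg
  split_ifs <;> abel

lemma sg_sg (s : Prop) [Decidable s] (a : A) : sg s (sg s a) = a := by
  unfold sg
  split_ifs <;> simp

lemma table : ∀ d d' : ZMod 2, ∀ b ∈ Finset.Icc (-3 : ℤ) 3, ∀ b' ∈ Finset.Icc (-3 : ℤ) 3,
    Ok (d, b) → Ok (d', b') → ∃ s : ZMod 2, ∃ q ∈ Finset.Icc (-3 : ℤ) 3,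
      Ok (s, q) ∧ Ok (d + s, b + q) ∧ Ok (d' + s, b' + q) := by
  decide +kernel

/-- two admissible values are changed to admissible values by some admissible value -/
lemma exists_add {β γ : P} (hβ : Ok β) (hγ : Ok γ) : ∃ c : P, Ok c ∧ Ok (β + c) ∧ Ok (γ + c) := by
  obtain ⟨s, q, -, h⟩ := table β.1 γ.1 β.2 (Finset.mem_Icc.2 (abs_le.1 hβ.1)) γ.2
    (Finset.mem_Icc.2 (abs_le.1 hγ.1)) hβ hγ
  exact ⟨(s, q), h⟩

/-- `G` has a `1/2`-flow-pair, in terms of flows with values in `ZMod 2 × ℤ` -/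
def Good (G : OrGraph V E) : Prop := ∃ ψ : E → P, (∀ v, gn G ψ v = 0) ∧ ∀ e, Ok (ψ e)

/-- a pair is a flow with admissible values in `ZMod 2 × ℤ` -/
lemma good_iff (G : OrGraph V E) : (∃ φ₂ φ₄ : E → ℤ, G.IsHalfFlowPair φ₂ φ₄) ↔ Good G := by
  constructor
  · rintro ⟨a, b, h⟩
    rw [Pool.Agent.TH60.HE.pair_iff] at h
    refine ⟨fun e => ((a e : ZMod 2), b e), fun v => ?_, fun e => ⟨(h.2.2 e).2.1, fun h0 => ?_⟩⟩
    · have h1 := (Pool.Agent.TH60.HE.isFlow_iff G a).1 h.1 v
      have h2 := (Pool.Agent.TH60.HE.isFlow_iff G b).1 h.2.1 v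
      unfold Pool.Agent.TH60.HE.net at h1 h2
      unfold gn
      ext
      · rw [Prod.fst_sum]
        have h3 := congrArg (fun x : ℤ => (x : ZMod 2)) h1
        simp only [Int.cast_sum, Int.cast_sub, Int.cast_zero] at h3
        rw [Prod.fst_zero, ← h3]
        refine Finset.sum_congr rfl fun e _ => ?_
        by_cases h4 : G.t e = v <;> by_cases h5 : G.h e = v <;> simp [h4, h5]
      · rw [Prod.snd_sum, Prod.snd_zero, ← h2]
        refine Finset.sum_congr rfl fun e _ => ?_
        by_cases h4 : G.t e = v <;> by_cases h5 : G.h e = v <;> simp [h4, h5]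
    · refine (h.2.2 e).2.2 ?_
      have h1 := abs_le.1 (h.2.2 e).1
      have h2 : ((a e : ℤ) : ZMod 2) = 0 := h0
      rw [ZMod.intCast_zmod_eq_zero_iff_dvd] at h2
      omega
  · rintro ⟨ψ, h1, h2⟩
    obtain ⟨F, hF⟩ : ∃ F : Finset E, F = univ.filter (fun e => (ψ e).1 = 1) := ⟨_, rfl⟩
    have hFm : ∀ e, e ∈ F ↔ (ψ e).1 = 1 := fun e => by rw [hF]; simp
    have h01 : ∀ a : ZMod 2, a ≠ 1 → a = 0 := by decide
    obtain ⟨φ, hφ, hnet⟩ := eulerian G.t G.h F (fun v => by
      have h3 := congrArg Prod.fst (h1 v)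
      unfold gn at h3
      rw [Prod.fst_sum, Prod.fst_zero] at h3
      have h4 : ∑ e, ((if G.t e = v then ψ e else 0) - (if G.h e = v then ψ e else 0)).1 =
          (((F.filter (fun e => G.t e = v)).card + (F.filter (fun e => G.h e = v)).card : ℕ) :
            ZMod 2) := by
        rw [Finset.card_filter, Finset.card_filter, ← Finset.sum_add_distrib, Nat.cast_sum]
        rw [hF, Finset.sum_filter]
        refine Finset.sum_congr rfl fun e _ => ?_
        have h5 : (ψ e).1 = 0 ∨ (ψ e).1 = 1 := by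
          by_cases h6 : (ψ e).1 = 1
          · exact Or.inr h6
          · exact Or.inl (h01 _ h6)
        have h7 : (-1 : ZMod 2) = 1 := by decide
        have h8 : (2 : ZMod 2) = 0 := by decide
        rcases h5 with h5 | h5 <;> by_cases h4 : G.t e = v <;> by_cases h6 : G.h e = v <;>
          simp [h4, h5, h6, h7, h8]
      rw [h4, ZMod.natCast_eq_zero_iff] at h3
      exact even_iff_two_dvd.2 h3)
    refine ⟨φ, fun e => (ψ e).2, ?_⟩
    rw [Pool.Agent.TH60.HE.pair_iff]
    refine ⟨?_, ?_, fun e => ⟨?_, (h2 e).1, fun h0 => ?_⟩⟩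
    · intro v
      have h := hnet v
      unfold net at h
      linarith
    · rw [Pool.Agent.TH60.HE.isFlow_iff]
      intro v
      have h3 := congrArg Prod.snd (h1 v)
      unfold gn at h3
      rw [Prod.snd_sum, Prod.snd_zero] at h3
      unfold Pool.Agent.TH60.HE.net
      refine Eq.trans ?_ h3
      refine Finset.sum_congr rfl fun e _ => ?_
      by_cases h4 : G.t e = v <;> by_cases h5 : G.h e = v <;> simp [h4, h5]
    · by_cases h : e ∈ F
      · rcases (hφ e).1 h with h' | h' <;> rw [h'] <;> norm_num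
      · rw [(hφ e).2 h]
        norm_num
    · refine (h2 e).2 (h01 _ fun h => ?_)
      rcases (hφ e).1 ((hFm e).2 h) with h' | h' <;> rw [h'] at h0 <;> norm_num at h0

/-- repairing the value of one edge of a cut with two edges -/
lemma fix2 (G : OrGraph V E) (X : Finset V) (e₁ e₂ : E) (hne : e₁ ≠ e₂)
    (hc : G.cut X = {e₁, e₂}) (ψ : E → P)
    (hψ : ∀ v, v ≠ G.t e₁ → v ≠ G.h e₁ → gn G ψ v = 0) (hok : ∀ e, e ≠ e₁ → Ok (ψ e)) :
    Good G := by
  have hm : e₁ ∈ G.cut X := by rw [hc]; simp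
  have hxy : G.t e₁ ≠ G.h e₁ := by
    intro h
    rw [mem_cut, h] at hm
    exact hm Iff.rfl
  obtain ⟨χ, hall, hχ⟩ : ∃ χ : E → P, (∀ v, gn G χ v = 0) ∧ ∀ e, e ≠ e₁ → χ e = ψ e := by
    obtain ⟨c, hcd⟩ : ∃ c : P, c = - gn G ψ (G.t e₁) := ⟨_, rfl⟩
    have hgn : ∀ v, gn G (fun e => ψ e + (if e = e₁ then c else 0)) v =
        gn G ψ v + ((if G.t e₁ = v then c else 0) - (if G.h e₁ = v then c else 0)) := by
      intro v
      rw [gn_add, gn_single]
    have h0 : ∀ v, v ≠ G.h e₁ → gn G (fun e => ψ e + (if e = e₁ then c else 0)) v = 0 := by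
      intro v hv
      rw [hgn]
      by_cases h1 : v = G.t e₁
      · subst h1
        rw [if_pos rfl, if_neg hxy.symm, hcd]
        abel
      · rw [hψ v h1 hv, if_neg (Ne.symm h1), if_neg (Ne.symm hv)]
        simp
    refine ⟨fun e => ψ e + (if e = e₁ then c else 0), fun v => ?_, fun e he => ?_⟩
    · by_cases hv : v = G.h e₁
      · have h1 := sum_gn G (fun e => ψ e + (if e = e₁ then c else 0))
        rw [Finset.sum_eq_single (G.h e₁) (fun b _ hb => h0 b hb)
          (fun h => absurd (Finset.mem_univ _) h)] at h1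
        rw [hv]
        exact h1
      · exact h0 v hv
    · simp [he]
  refine ⟨χ, hall, ?_⟩
  intro e
  by_cases he : e = e₁
  · subst he
    have h1 := sum_gn_set G χ X
    rw [Finset.sum_eq_zero (fun v _ => hall v), hc, Finset.sum_pair hne] at h1
    have h2 : Ok (χ e₂) := by
      rw [hχ e₂ hne.symm]
      exact hok e₂ hne.symm
    have h3 : sg (G.t e ∈ X) (χ e) = - sg (G.t e₂ ∈ X) (χ e₂) :=
      eq_neg_of_add_eq_zero_left h1.symm
    have h4 : Ok (sg (G.t e ∈ X) (χ e)) := by
      rw [h3]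
      exact ok_neg (ok_sg _ h2)
    have h5 := ok_sg (G.t e ∈ X) h4
    rw [sg_sg] at h5
    exact h5
  · rw [hχ e he]
    exact hok e he

end Pool.Agent.Q234.HF
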