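import Mathlib
import Pool.Agent.Q234.HF.Base

/-! # Deleting edges of short circuits -/

set_option autoImplicit false
set_option linter.unusedSectionVars false

namespace Pool.Agent.Q234.HF
open Finset Pool.Agent.H160R2.HF Pool.Agent.H160R2.HF.OrGraph

variable {V E : Type*} [Fintype V] [Fintype E] [DecidableEq V] [DecidableEq E]
variable {A : Type*} [AddCommGroup A]

/-- the edges of `S` become loops -/
def del (G : OrGraph V E) (S : Finset E) : OrGraph V E where
  t e := if e ∈ S then G.h e else G.t e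
  h := G.h

lemma cut_del (G : OrGraph V E) (S : Finset E) (X : Finset V) :
    (del G S).cut X = G.cut X \ S := by
  ext e
  rw [mem_cut, mem_sdiff, mem_cut]
  unfold del
  by_cases he : e ∈ S <;> simp [he]

lemma gn_del (G : OrGraph V E) (S : Finset E) (ψ : E → A) (v : V) :
    gn (del G S) ψ v = gn G (fun e => if e ∈ S then 0 else ψ e) v := by
  unfold gn del
  refine Finset.sum_congr rfl fun e _ => ?_
  by_cases he : e ∈ S <;> simp [he]

/-- the edge `e` joins `u` and `w` -/
def Joins (G : OrGraph V E) (e : E) (u w : V) : Prop :=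
  (G.t e = u ∧ G.h e = w) ∨ (G.t e = w ∧ G.h e = u)

/-- the value `c` along `e`, directed away from `u` -/
def along (G : OrGraph V E) (e : E) (u : V) (c : A) : E → A :=
  fun x => if x = e then sg (G.t e = u) c else 0

lemma gn_along {G : OrGraph V E} {e : E} {u w : V} (h : Joins G e u w) (huw : u ≠ w) (c : A)
    (v : V) :
    gn G (along G e u c) v = (if u = v then c else 0) - (if w = v then c else 0) := by
  unfold along
  rw [gn_single]
  unfold sg
  rcases h with ⟨h1, h2⟩ | ⟨h1, h2⟩
  · rw [h1, h2, if_pos rfl]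
  · rw [h1, h2, if_neg huw.symm]
    split_ifs <;> simp

lemma ok_add {β c : P} (s : Prop) [Decidable s] (h : Ok (sg s β + c)) : Ok (β + sg s c) := by
  have h1 := ok_sg s h
  rw [sg_add, sg_sg] at h1
  exact h1

lemma Joins.ne_of {G : OrGraph V E} {e e' : E} {a b c d : V} (h : Joins G e a b)
    (h' : Joins G e' c d) (h1 : ¬ (a = c ∧ b = d)) (h2 : ¬ (a = d ∧ b = c)) : e ≠ e' := by
  rintro rfl
  rcases h with ⟨h3, h4⟩ | ⟨h3, h4⟩ <;> rcases h' with ⟨h5, h6⟩ | ⟨h5, h6⟩
  · exact h1 ⟨h3.symm.trans h5, h4.symm.trans h6⟩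
  · exact h2 ⟨h3.symm.trans h5, h4.symm.trans h6⟩
  · exact h2 ⟨h4.symm.trans h6, h3.symm.trans h5⟩
  · exact h1 ⟨h4.symm.trans h6, h3.symm.trans h5⟩

/-- two parallel edges: one of them is deleted -/
lemma good_two {G : OrGraph V E} {e₁ e₂ : E} {u₁ u₂ : V} (h1 : Joins G e₁ u₁ u₂)
    (h2 : Joins G e₂ u₂ u₁) (hu : u₁ ≠ u₂) (he : e₁ ≠ e₂) (H : Good (del G {e₁})) : Good G := by
  obtain ⟨ψ, hψ, hok⟩ := H
  obtain ⟨c, hc, hc2, -⟩ := exists_add (ok_sg (G.t e₂ = u₂) (hok e₂)) (ok_sg (G.t e₂ = u₂) (hok e₂))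
  refine ⟨fun x => (if x ∈ ({e₁} : Finset E) then 0 else ψ x) +
    (along G e₁ u₁ c x + along G e₂ u₂ c x), fun v => ?_, fun x => ?_⟩
  · rw [gn_add, gn_add, gn_along h1 hu, gn_along h2 hu.symm, ← gn_del, hψ]
    abel
  · unfold along
    by_cases hx1 : x = e₁
    · subst hx1
      simp only [mem_singleton, if_true, if_neg he, add_zero, zero_add]
      exact ok_sg _ hc
    · by_cases hx2 : x = e₂
      · subst hx2
        simp only [mem_singleton, if_true, if_neg hx1, zero_add]
        exact ok_add _ hc2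
      · simp only [mem_singleton, if_neg hx1, if_neg hx2, add_zero]
        exact hok x

/-- a triangle: one of its edges is deleted -/
lemma good_three {G : OrGraph V E} {e₁ e₂ e₃ : E} {u₁ u₂ u₃ : V} (h1 : Joins G e₁ u₁ u₂)
    (h2 : Joins G e₂ u₂ u₃) (h3 : Joins G e₃ u₃ u₁) (h12 : u₁ ≠ u₂) (h13 : u₁ ≠ u₃)
    (h23 : u₂ ≠ u₃) (H : Good (del G {e₁})) : Good G := by
  have e12 : e₁ ≠ e₂ := h1.ne_of h2 (fun h => h12 h.1) (fun h => h13 h.1)
  have e13 : e₁ ≠ e₃ := h1.ne_of h3 (fun h => h13 h.1) (fun h => h23 h.2)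
  have e23 : e₂ ≠ e₃ := h2.ne_of h3 (fun h => h23 h.1) (fun h => h12 h.1.symm)
  obtain ⟨ψ, hψ, hok⟩ := H
  obtain ⟨c, hc, hc2, hc3⟩ := exists_add (ok_sg (G.t e₂ = u₂) (hok e₂))
    (ok_sg (G.t e₃ = u₃) (hok e₃))
  refine ⟨fun x => (if x ∈ ({e₁} : Finset E) then 0 else ψ x) +
    (along G e₁ u₁ c x + (along G e₂ u₂ c x + along G e₃ u₃ c x)), fun v => ?_, fun x => ?_⟩
  · rw [gn_add, gn_add, gn_add, gn_along h1 h12, gn_along h2 h23, gn_along h3 h13.symm, ← gn_del,
      hψ]
    abel
  · unfold along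
    by_cases hx1 : x = e₁
    · subst hx1
      simp only [mem_singleton, if_true, if_neg e12, if_neg e13, add_zero, zero_add]
      exact ok_sg _ hc
    · by_cases hx2 : x = e₂
      · subst hx2
        simp only [mem_singleton, if_true, if_neg hx1, if_neg e23, zero_add, add_zero]
        exact ok_add _ hc2
      · by_cases hx3 : x = e₃
        · subst hx3
          simp only [mem_singleton, if_true, if_neg hx1, if_neg hx2, zero_add]
          exact ok_add _ hc3
        · simp only [mem_singleton, if_neg hx1, if_neg hx2, if_neg hx3, add_zero]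
          exact hok x

/-- a circuit of length four: two opposite edges are deleted -/
lemma good_four {G : OrGraph V E} {e₁ e₂ e₃ e₄ : E} {u₁ u₂ u₃ u₄ : V} (h1 : Joins G e₁ u₁ u₂)
    (h2 : Joins G e₂ u₂ u₃) (h3 : Joins G e₃ u₃ u₄) (h4 : Joins G e₄ u₄ u₁) (h12 : u₁ ≠ u₂)
    (h13 : u₁ ≠ u₃) (h14 : u₁ ≠ u₄) (h23 : u₂ ≠ u₃) (h24 : u₂ ≠ u₄) (h34 : u₃ ≠ u₄)
    (H : Good (del G {e₁, e₃})) : Good G := by
  have e12 : e₁ ≠ e₂ := h1.ne_of h2 (fun h => h12 h.1) (fun h => h13 h.1)
  have e13 : e₁ ≠ e₃ := h1.ne_of h3 (fun h => h13 h.1) (fun h => h14 h.1)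
  have e14 : e₁ ≠ e₄ := h1.ne_of h4 (fun h => h14 h.1) (fun h => h24 h.2)
  have e23 : e₂ ≠ e₃ := h2.ne_of h3 (fun h => h23 h.1) (fun h => h24 h.1)
  have e24 : e₂ ≠ e₄ := h2.ne_of h4 (fun h => h24 h.1) (fun h => h12 h.1.symm)
  have e34 : e₃ ≠ e₄ := h3.ne_of h4 (fun h => h34 h.1) (fun h => h13 h.1.symm)
  obtain ⟨ψ, hψ, hok⟩ := H
  obtain ⟨c, hc, hc2, hc4⟩ := exists_add (ok_sg (G.t e₂ = u₂) (hok e₂))
    (ok_sg (G.t e₄ = u₄) (hok e₄))
  refine ⟨fun x => (if x ∈ ({e₁, e₃} : Finset E) then 0 else ψ x) +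
    (along G e₁ u₁ c x + (along G e₂ u₂ c x + (along G e₃ u₃ c x + along G e₄ u₄ c x))),
    fun v => ?_, fun x => ?_⟩
  · rw [gn_add, gn_add, gn_add, gn_add, gn_along h1 h12, gn_along h2 h23, gn_along h3 h34,
      gn_along h4 h14.symm, ← gn_del, hψ]
    abel
  · unfold along
    by_cases hx1 : x = e₁
    · subst hx1
      simp only [mem_insert, mem_singleton, true_or, if_true, if_neg e12, if_neg e13, if_neg e14,
        add_zero, zero_add]
      exact ok_sg _ hc
    · by_cases hx3 : x = e₃
      · subst hx3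
        simp only [mem_insert, mem_singleton, or_true, if_true, if_neg e13.symm, if_neg e23.symm,
          if_neg e34, add_zero, zero_add]
        exact ok_sg _ hc
      · by_cases hx2 : x = e₂
        · subst hx2
          simp only [mem_insert, mem_singleton, if_true, hx1, hx3, or_self, if_false, if_neg e24,
            zero_add, add_zero]
          exact ok_add _ hc2
        · by_cases hx4 : x = e₄
          · subst hx4
            simp only [mem_insert, mem_singleton, if_true, hx1, hx2, hx3, or_self, if_false,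
              zero_add]
            exact ok_add _ hc4
          · simp only [mem_insert, mem_singleton, hx1, hx2, hx3, hx4, or_self, if_false, add_zero]
            exact hok x

/-- in a graph without edge cuts with one or two edges an edge may be deleted -/
lemma del_one {G : OrGraph V E} (hG : G.Bridgeless) (h2 : ∀ X, (G.cut X).card ≠ 2) (e : E) :
    (del G {e}).Bridgeless := by
  rw [bridgeless_iff] at hG ⊢
  intro X x hx
  rw [cut_del] at hx
  have hxm : x ∈ G.cut X \ {e} := by rw [hx]; simp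
  rw [mem_sdiff, mem_singleton] at hxm
  by_cases he : e ∈ G.cut X
  · apply h2 X
    have h3 := Finset.card_sdiff_of_subset (Finset.singleton_subset_iff.2 he)
    rw [hx, card_singleton, card_singleton] at h3
    have h4 : 0 < (G.cut X).card := Finset.card_pos.2 ⟨e, he⟩
    omega
  · apply hG X x
    rw [← hx]
    ext y
    rw [mem_sdiff, mem_singleton]
    exact ⟨fun h => ⟨h, fun h' => he (h' ▸ h)⟩, fun h => h.1⟩

/-- the cuts which keep the deletion of two edges from being bridgeless -/
lemma not_del_two {G : OrGraph V E} (hG : G.Bridgeless) (h2 : ∀ X, (G.cut X).card ≠ 2) {a b : E}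
    (hab : a ≠ b) (h : ¬ (del G {a, b}).Bridgeless) :
    ∃ (X : Finset V) (g : E), g ≠ a ∧ g ≠ b ∧ ∀ x, x ∈ G.cut X ↔ x = a ∨ x = b ∨ x = g := by
  rw [bridgeless_iff] at h
  push Not at h
  obtain ⟨X, g, hX⟩ := h
  rw [cut_del] at hX
  have hmem : ∀ x, (x ∈ G.cut X ∧ ¬ (x = a ∨ x = b)) ↔ x = g := by
    intro x
    have h3 : x ∈ G.cut X \ {a, b} ↔ x ∈ ({g} : Finset E) := by rw [hX]
    rw [mem_sdiff, mem_insert, mem_singleton, mem_singleton] at h3
    exact h3
  have hg := (hmem g).2 rfl
  have ha : a ∈ G.cut X := by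
    by_contra ha
    by_cases hb : b ∈ G.cut X
    · apply h2 X
      have h5 : G.cut X = {b, g} := by
        ext x
        rw [mem_insert, mem_singleton]
        constructor
        · intro hx
          by_cases h6 : x = b
          · exact Or.inl h6
          · refine Or.inr ((hmem x).1 ⟨hx, ?_⟩)
            rintro (rfl | rfl)
            · exact ha hx
            · exact h6 rfl
        · rintro (rfl | rfl)
          · exact hb
          · exact hg.1
      rw [h5, card_pair (fun h => hg.2 (Or.inr h.symm))]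
    · apply (bridgeless_iff G).1 hG X g
      ext x
      rw [mem_singleton, ← hmem x]
      refine ⟨fun hx => ⟨hx, ?_⟩, fun hx => hx.1⟩
      rintro (rfl | rfl)
      · exact ha hx
      · exact hb hx
  have hb : b ∈ G.cut X := by
    by_contra hb
    apply h2 X
    have h5 : G.cut X = {a, g} := by
      ext x
      rw [mem_insert, mem_singleton]
      constructor
      · intro hx
        by_cases h6 : x = a
        · exact Or.inl h6
        · refine Or.inr ((hmem x).1 ⟨hx, ?_⟩)
          rintro (rfl | rfl)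
          · exact h6 rfl
          · exact hb hx
      · rintro (rfl | rfl)
        · exact ha
        · exact hg.1
    rw [h5, card_pair (fun h => hg.2 (Or.inl h.symm))]
  refine ⟨X, g, fun h => hg.2 (Or.inl h), fun h => hg.2 (Or.inr h), fun x => ?_⟩
  constructor
  · intro hx
    by_cases h6 : x = a
    · exact Or.inl h6
    · by_cases h7 : x = b
      · exact Or.inr (Or.inl h7)
      · exact Or.inr (Or.inr ((hmem x).1 ⟨hx, fun h => h.elim h6 h7⟩))
  · rintro (rfl | rfl | rfl)
    · exact ha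
    · exact hb
    · exact hg.1

end Pool.Agent.Q234.HF
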