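import Mathlib
import Pool.Agent.Q234.HF.Red

/-! # Circuits of length four in graphs without edge cuts with one or two edges -/

set_option autoImplicit false
set_option linter.unusedSectionVars false

namespace Pool.Agent.Q234.HF
open Finset Pool.Agent.H160R2.HF Pool.Agent.H160R2.HF.OrGraph

variable {V E : Type*} [Fintype V] [Fintype E] [DecidableEq V] [DecidableEq E]

lemma Joins.cut_iff {G : OrGraph V E} {e : E} {u w : V} (h : Joins G e u w) (X : Finset V) :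
    e ∈ G.cut X ↔ ¬ (u ∈ X ↔ w ∈ X) := by
  rw [mem_cut]
  rcases h with ⟨h1, h2⟩ | ⟨h1, h2⟩
  · rw [h1, h2]
  · rw [h1, h2, not_iff_not]
    exact Iff.comm


lemma prop1 (a b c d : Prop) (h1 : ¬ (a ↔ b)) (h2 : ¬ (c ↔ d)) (h3 : ¬ (b ↔ c)) : ¬ (d ↔ a) := by
  tauto

lemma prop2 (a b c d : Prop) (h1 : ¬ (a ↔ b)) (h2 : ¬ (c ↔ d)) (h3 : (b ↔ c)) : (d ↔ a) := by
  tauto

lemma quarter (z1 z2 z3 z4 y1 y2 y3 y4 p q : Prop) (z12 : ¬ (z1 ↔ z2)) (z23 : z2 ↔ z3)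
    (z41 : z4 ↔ z1) (y12 : y1 ↔ y2) (y34 : y3 ↔ y4) (y23 : ¬ (y2 ↔ y3)) :
    (((z1 ↔ p) ∧ (y1 ↔ q)) ∧ ¬ ((z2 ↔ p) ∧ (y2 ↔ q)) ∧ ¬ ((z3 ↔ p) ∧ (y3 ↔ q)) ∧
      ¬ ((z4 ↔ p) ∧ (y4 ↔ q))) ∨
    (¬ ((z1 ↔ p) ∧ (y1 ↔ q)) ∧ ((z2 ↔ p) ∧ (y2 ↔ q)) ∧ ¬ ((z3 ↔ p) ∧ (y3 ↔ q)) ∧
      ¬ ((z4 ↔ p) ∧ (y4 ↔ q))) ∨
    (¬ ((z1 ↔ p) ∧ (y1 ↔ q)) ∧ ¬ ((z2 ↔ p) ∧ (y2 ↔ q)) ∧ ((z3 ↔ p) ∧ (y3 ↔ q)) ∧
      ¬ ((z4 ↔ p) ∧ (y4 ↔ q))) ∨
    (¬ ((z1 ↔ p) ∧ (y1 ↔ q)) ∧ ¬ ((z2 ↔ p) ∧ (y2 ↔ q)) ∧ ¬ ((z3 ↔ p) ∧ (y3 ↔ q)) ∧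
      ((z4 ↔ p) ∧ (y4 ↔ q))) := by
  obtain rfl : z4 = z1 := propext z41
  obtain rfl : z3 = z2 := propext z23.symm
  obtain rfl : y2 = y1 := propext y12.symm
  obtain rfl : y4 = y3 := propext y34.symm
  by_cases h1 : z4 <;> by_cases h2 : z3 <;> by_cases h3 : y4 <;> by_cases h4 : y2 <;>
    by_cases h5 : p <;> by_cases h6 : q <;> simp_all

lemma qA (a b c d : Prop) (h1 : ¬ (a ↔ b)) (h2 : ¬ (c ↔ d)) :
    ¬ ((a ↔ a) ∧ (c ↔ ¬ c)) ∧ ¬ ((b ↔ a) ∧ (d ↔ ¬ c)) := by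
  by_cases h1 : a <;> by_cases h2 : b <;> by_cases h3 : c <;> by_cases h4 : d <;> simp_all

/-- two opposite edges of a circuit of length four may be deleted -/
lemma del_four {G : OrGraph V E} (hG : G.Bridgeless) (h2 : ∀ X, (G.cut X).card ≠ 2)
    {e₁ e₂ e₃ e₄ : E} {u₁ u₂ u₃ u₄ : V} (j1 : Joins G e₁ u₁ u₂)
    (j2 : Joins G e₂ u₂ u₃) (j3 : Joins G e₃ u₃ u₄) (j4 : Joins G e₄ u₄ u₁) (h12 : u₁ ≠ u₂)
    (h13 : u₁ ≠ u₃) (h14 : u₁ ≠ u₄) (h23 : u₂ ≠ u₃) (h24 : u₂ ≠ u₄) (h34 : u₃ ≠ u₄) :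
    (del G {e₁, e₃}).Bridgeless ∨ (del G {e₂, e₄}).Bridgeless := by
  classical
  have e12 : e₁ ≠ e₂ := j1.ne_of j2 (fun h => h12 h.1) (fun h => h13 h.1)
  have e13 : e₁ ≠ e₃ := j1.ne_of j3 (fun h => h13 h.1) (fun h => h14 h.1)
  have e14 : e₁ ≠ e₄ := j1.ne_of j4 (fun h => h14 h.1) (fun h => h24 h.2)
  have e23 : e₂ ≠ e₃ := j2.ne_of j3 (fun h => h23 h.1) (fun h => h24 h.1)
  have e24 : e₂ ≠ e₄ := j2.ne_of j4 (fun h => h24 h.1) (fun h => h12 h.1.symm)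
  have e34 : e₃ ≠ e₄ := j3.ne_of j4 (fun h => h34 h.1) (fun h => h13 h.1.symm)
  by_contra hcon
  push Not at hcon
  obtain ⟨Z, g, hg1, hg3, hZ⟩ := not_del_two hG h2 e13 hcon.1
  obtain ⟨Z', g', hg2', hg4', hZ'⟩ := not_del_two hG h2 e24 hcon.2
  -- the positions of the four vertices
  have z12 : ¬ (u₁ ∈ Z ↔ u₂ ∈ Z) := (j1.cut_iff Z).1 ((hZ e₁).2 (Or.inl rfl))
  have z34 : ¬ (u₃ ∈ Z ↔ u₄ ∈ Z) := (j3.cut_iff Z).1 ((hZ e₃).2 (Or.inr (Or.inl rfl)))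
  have c2 : ¬ (u₂ ∈ Z ↔ u₃ ∈ Z) ↔ e₂ = g := by
    rw [← j2.cut_iff Z, hZ e₂]
    exact ⟨fun h => (h.resolve_left e12.symm).resolve_left e23, fun h => Or.inr (Or.inr h)⟩
  have c4 : ¬ (u₄ ∈ Z ↔ u₁ ∈ Z) ↔ e₄ = g := by
    rw [← j4.cut_iff Z, hZ e₄]
    exact ⟨fun h => (h.resolve_left e14.symm).resolve_left e34.symm, fun h => Or.inr (Or.inr h)⟩
  have z23 : (u₂ ∈ Z ↔ u₃ ∈ Z) := by
    by_contra h
    have h4 : ¬ (u₄ ∈ Z ↔ u₁ ∈ Z) := prop1 _ _ _ _ z12 z34 h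
    exact e24 ((c2.1 h).trans (c4.1 h4).symm)
  have z41 : (u₄ ∈ Z ↔ u₁ ∈ Z) := prop2 _ _ _ _ z12 z34 z23
  have hg2 : g ≠ e₂ := fun h => c2.2 h.symm z23
  have hg4 : g ≠ e₄ := fun h => c4.2 h.symm z41
  have y23 : ¬ (u₂ ∈ Z' ↔ u₃ ∈ Z') := (j2.cut_iff Z').1 ((hZ' e₂).2 (Or.inl rfl))
  have y41 : ¬ (u₄ ∈ Z' ↔ u₁ ∈ Z') := (j4.cut_iff Z').1 ((hZ' e₄).2 (Or.inr (Or.inl rfl)))
  have d1 : ¬ (u₁ ∈ Z' ↔ u₂ ∈ Z') ↔ e₁ = g' := by
    rw [← j1.cut_iff Z', hZ' e₁]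
    exact ⟨fun h => (h.resolve_left e12).resolve_left e14, fun h => Or.inr (Or.inr h)⟩
  have d3 : ¬ (u₃ ∈ Z' ↔ u₄ ∈ Z') ↔ e₃ = g' := by
    rw [← j3.cut_iff Z', hZ' e₃]
    exact ⟨fun h => (h.resolve_left e23.symm).resolve_left e34, fun h => Or.inr (Or.inr h)⟩
  have y12 : (u₁ ∈ Z' ↔ u₂ ∈ Z') := by
    by_contra h
    have h4 : ¬ (u₃ ∈ Z' ↔ u₄ ∈ Z') := by
      have := prop1 _ _ _ _ y41 y23 h
      exact fun h' => this h'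
    exact e13 ((d1.1 h).trans (d3.1 h4).symm)
  have y34 : (u₃ ∈ Z' ↔ u₄ ∈ Z') := prop2 _ _ _ _ y41 y23 y12
  have hg1' : g' ≠ e₁ := fun h => d1.2 h.symm y12
  have hg3' : g' ≠ e₃ := fun h => d3.2 h.symm y34
  -- a quarter which meets neither of the two further edges
  obtain ⟨p, q, hpq⟩ : ∃ p q : Prop, ∀ v, (v = G.t g ∨ v = G.h g ∨ v = G.t g' ∨ v = G.h g') →
      ¬ ((v ∈ Z ↔ p) ∧ (v ∈ Z' ↔ q)) := by
    have hgZ : ¬ (G.t g ∈ Z ↔ G.h g ∈ Z) := mem_cut.1 ((hZ g).2 (Or.inr (Or.inr rfl)))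
    have hgZ' : ¬ (G.t g' ∈ Z' ↔ G.h g' ∈ Z') := mem_cut.1 ((hZ' g').2 (Or.inr (Or.inr rfl)))
    by_cases hgg : g = g'
    · subst hgg
      refine ⟨G.t g ∈ Z, ¬ G.t g ∈ Z', ?_⟩
      have h9 := qA _ _ _ _ hgZ hgZ'
      rintro v (rfl | rfl | rfl | rfl)
      · exact h9.1
      · exact h9.2
      · exact h9.1
      · exact h9.2
    · have h3 : (G.t g ∈ Z' ↔ G.h g ∈ Z') := by
        by_contra h
        rcases (hZ' g).1 (mem_cut.2 h) with h' | h' | h'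
        · exact hg2 h'
        · exact hg4 h'
        · exact hgg h'
      have h4 : (G.t g' ∈ Z ↔ G.h g' ∈ Z) := by
        by_contra h
        rcases (hZ g').1 (mem_cut.2 h) with h' | h' | h'
        · exact hg1' h'
        · exact hg3' h'
        · exact hgg h'.symm
      refine ⟨¬ G.t g' ∈ Z, ¬ G.t g ∈ Z', ?_⟩
      rintro v (rfl | rfl | rfl | rfl)
      · exact fun h => (iff_not_self h.2).elim
      · rw [← h3]
        exact fun h => (iff_not_self h.2).elim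
      · exact fun h => (iff_not_self h.1).elim
      · rw [← h4]
        exact fun h => (iff_not_self h.1).elim
  obtain ⟨W, hW⟩ : ∃ W : Finset V, ∀ v, v ∈ W ↔ ((v ∈ Z ↔ p) ∧ (v ∈ Z' ↔ q)) :=
    ⟨univ.filter fun v => ((v ∈ Z ↔ p) ∧ (v ∈ Z' ↔ q)), fun v => by simp⟩
  have hout : ∀ x, x ≠ e₁ → x ≠ e₂ → x ≠ e₃ → x ≠ e₄ → x ∉ G.cut W := by
    intro x h1 h2 h3 h4
    rw [mem_cut, not_not]
    by_cases hx : x = g ∨ x = g'
    · have ht : G.t x ∉ W := by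
        rw [hW]
        rcases hx with rfl | rfl
        · exact hpq _ (Or.inl rfl)
        · exact hpq _ (Or.inr (Or.inr (Or.inl rfl)))
      have hh : G.h x ∉ W := by
        rw [hW]
        rcases hx with rfl | rfl
        · exact hpq _ (Or.inr (Or.inl rfl))
        · exact hpq _ (Or.inr (Or.inr (Or.inr rfl)))
      exact ⟨fun h => absurd h ht, fun h => absurd h hh⟩
    · push Not at hx
      have h5 : (G.t x ∈ Z ↔ G.h x ∈ Z) := by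
        by_contra h
        rcases (hZ x).1 (mem_cut.2 h) with h' | h' | h'
        · exact h1 h'
        · exact h3 h'
        · exact hx.1 h'
      have h6 : (G.t x ∈ Z' ↔ G.h x ∈ Z') := by
        by_contra h
        rcases (hZ' x).1 (mem_cut.2 h) with h' | h' | h'
        · exact h2 h'
        · exact h4 h'
        · exact hx.2 h'
      rw [hW, hW, h5, h6]
  have key : ∀ a b : E, a ≠ b → (∀ x, x ∈ G.cut W ↔ x = a ∨ x = b) → False := by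
    intro a b hab h
    apply h2 W
    have h5 : G.cut W = {a, b} := by
      ext x
      rw [h x, mem_insert, mem_singleton]
    rw [h5, card_pair hab]
  have k1 := j1.cut_iff W
  have k2 := j2.cut_iff W
  have k3 := j3.cut_iff W
  have k4 := j4.cut_iff W
  rw [hW, hW] at k1 k2 k3 k4
  have fin : ∀ a b : E, a ≠ b → (e₁ ∈ G.cut W ↔ e₁ = a ∨ e₁ = b) →
      (e₂ ∈ G.cut W ↔ e₂ = a ∨ e₂ = b) → (e₃ ∈ G.cut W ↔ e₃ = a ∨ e₃ = b) →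
      (e₄ ∈ G.cut W ↔ e₄ = a ∨ e₄ = b) → (a = e₁ ∨ a = e₂ ∨ a = e₃ ∨ a = e₄) →
      (b = e₁ ∨ b = e₂ ∨ b = e₃ ∨ b = e₄) → False := by
    intro a b hab f1 f2 f3 f4 ha hb
    refine key a b hab fun x => ?_
    by_cases x1 : x = e₁
    · rw [x1]; exact f1
    · by_cases x2 : x = e₂
      · rw [x2]; exact f2
      · by_cases x3 : x = e₃
        · rw [x3]; exact f3
        · by_cases x4 : x = e₄
          · rw [x4]; exact f4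
          · refine ⟨fun h => absurd h (hout x x1 x2 x3 x4), ?_⟩
            rintro (rfl | rfl)
            · rcases ha with h | h | h | h
              · exact (x1 h).elim
              · exact (x2 h).elim
              · exact (x3 h).elim
              · exact (x4 h).elim
            · rcases hb with h | h | h | h
              · exact (x1 h).elim
              · exact (x2 h).elim
              · exact (x3 h).elim
              · exact (x4 h).elim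
  rcases quarter _ _ _ _ _ _ _ _ p q z12 z23 z41 y12 y34 y23 with
    ⟨w1, w2, w3, w4⟩ | ⟨w1, w2, w3, w4⟩ | ⟨w1, w2, w3, w4⟩ | ⟨w1, w2, w3, w4⟩
  · refine fin e₄ e₁ e14.symm ?_ ?_ ?_ ?_ (by simp) (by simp)
    · rw [k1]; simp [w1, w2]
    · rw [k2]; simp [w2, w3, e24, e12.symm]
    · rw [k3]; simp [w3, w4, e34, e13.symm]
    · rw [k4]; simp [w4, w1]
  · refine fin e₁ e₂ e12 ?_ ?_ ?_ ?_ (by simp) (by simp)
    · rw [k1]; simp [w1, w2]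
    · rw [k2]; simp [w2, w3]
    · rw [k3]; simp [w3, w4, e13.symm, e23.symm]
    · rw [k4]; simp [w4, w1, e14.symm, e24.symm]
  · refine fin e₂ e₃ e23 ?_ ?_ ?_ ?_ (by simp) (by simp)
    · rw [k1]; simp [w1, w2, e12, e13]
    · rw [k2]; simp [w2, w3]
    · rw [k3]; simp [w3, w4]
    · rw [k4]; simp [w4, w1, e24.symm, e34.symm]
  · refine fin e₃ e₄ e34 ?_ ?_ ?_ ?_ (by simp) (by simp)
    · rw [k1]; simp [w1, w2, e13, e14]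
    · rw [k2]; simp [w2, w3, e23, e24]
    · rw [k3]; simp [w3, w4]
    · rw [k4]; simp [w4, w1]

end Pool.Agent.Q234.HF
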