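import Mathlib
import Pool.Agent.Q234.HF.Red

/-! # Destroying edge cuts with two edges in cubic graphs -/

set_option autoImplicit false
set_option linter.unusedSectionVars false

namespace Pool.Agent.Q234.HF
open Finset Pool.Agent.H160R2.HF Pool.Agent.H160R2.HF.OrGraph

variable {V E : Type*} [Fintype V] [Fintype E] [DecidableEq V] [DecidableEq E]
variable {A : Type*} [AddCommGroup A]

lemma gn_congr {G G' : OrGraph V E} {v : V} (h1 : ∀ z, G'.t z = v ↔ G.t z = v)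
    (h2 : ∀ z, G'.h z = v ↔ G.h z = v) (ψ : E → A) : gn G' ψ v = gn G ψ v := by
  unfold gn
  refine Finset.sum_congr rfl fun z _ => ?_
  simp only [h1 z, h2 z]

lemma cut_compl (G : OrGraph V E) (X : Finset V) : G.cut Xᶜ = G.cut X := by
  ext z
  rw [mem_cut, mem_cut, mem_compl, mem_compl]
  exact not_congr not_iff_not

lemma mem_cut_one {G : OrGraph V E} {x : V} {z : E} :
    z ∈ G.cut {x} ↔ ¬ (G.t z = x ↔ G.h z = x) := by
  rw [mem_cut, mem_singleton, mem_singleton]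

lemma pQa (TX HX TZ HZ Tx Hx : Prop) (h : ¬ (Tx ↔ Hx)) (h1 : ¬ Tx → TZ) (h2 : ¬ Hx → HZ) :
    ((TX ∧ ¬ TZ ∧ ¬ Tx) ↔ (HX ∧ ¬ HZ ∧ ¬ Hx)) := by tauto

lemma pQb (TX HX TZ HZ Tx Hx : Prop) (h : ¬ (Tx ↔ Hx)) (h1 : ¬ Tx → ¬ TZ) (h2 : ¬ Hx → ¬ HZ)
    (h3 : Tx → TX) (h4 : Hx → HX) (h5 : (TX ↔ HX)) :
    ¬ ((TX ∧ ¬ TZ ∧ ¬ Tx) ↔ (HX ∧ ¬ HZ ∧ ¬ Hx)) := by tauto

lemma pQ1 (TX HX TZ HZ Tx Hx : Prop) (h : ¬ (Tx ↔ Hx)) (h3 : Tx → TX) (h4 : Hx → HX)
    (h5 : ¬ (TX ↔ HX)) :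
    ((TX ∧ ¬ TZ ∧ ¬ Tx) ↔ (HX ∧ ¬ HZ ∧ ¬ Hx)) := by tauto

lemma pQ2 (TX HX TZ HZ Tx Hx : Prop) (h1 : TX → TZ) (h2 : HX → HZ) :
    ((TX ∧ ¬ TZ ∧ ¬ Tx) ↔ (HX ∧ ¬ HZ ∧ ¬ Hx)) := by tauto

lemma pQ3 (TX HX TZ HZ Tx Hx : Prop) (h : (Tx ↔ Hx)) (h1 : (TX ↔ HX))
    (h2 : TX → HX → (TZ ↔ HZ)) :
    ((TX ∧ ¬ TZ ∧ ¬ Tx) ↔ (HX ∧ ¬ HZ ∧ ¬ Hx)) := by tauto

lemma pX (TX HX Tx Hx : Prop) (h3 : Tx → TX) (h4 : Hx → HX) :
    (¬ ((¬ Tx ∧ TX) ↔ (¬ Hx ∧ HX))) ↔ ¬ ((¬ (TX ↔ HX)) ↔ ¬ (Tx ↔ Hx)) := by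
  by_cases h1 : TX <;> by_cases h2 : HX <;> by_cases h5 : Tx <;> by_cases h6 : Hx <;> simp_all

lemma corner1 {G : OrGraph V E} (hG : G.Bridgeless) {X : Finset V} {x : V} (hx : x ∈ X)
    {e₁ e₂ a b : E} (hX : ∀ z, z ∈ G.cut X ↔ z = e₁ ∨ z = e₂)
    (hv : ∀ z, z ∈ G.cut {x} ↔ z = e₁ ∨ z = a ∨ z = b)
    (h1b : e₁ ≠ b) (hab : a ≠ b) (h2b : e₂ ≠ b) {Z : Finset V}
    (ha : ∀ v, (v = G.t a ∨ v = G.h a) → v ≠ x → v ∈ Z)
    (hb : ∀ v, (v = G.t b ∨ v = G.h b) → v ≠ x → v ∉ Z)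
    (hz : ∀ z, G.t z ∈ X → G.h z ∈ X → z ≠ a → z ≠ b → (G.t z ∈ Z ↔ G.h z ∈ Z))
    (he : ∀ v, (v = G.t e₂ ∨ v = G.h e₂) → v ∈ X → v ∈ Z) : False := by
  classical
  obtain ⟨Q, hQ⟩ : ∃ Q : Finset V, ∀ v, v ∈ Q ↔ (v ∈ X ∧ ¬ v ∈ Z ∧ ¬ v = x) :=
    ⟨univ.filter fun v => (v ∈ X ∧ ¬ v ∈ Z ∧ ¬ v = x), fun v => by simp⟩
  apply (bridgeless_iff G).1 hG Q b
  have hTx : ∀ v, v = x → v ∈ X := fun v h => h ▸ hx
  ext z
  rw [mem_cut, mem_singleton, hQ, hQ]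
  by_cases hzb : z = b
  · refine ⟨fun _ => hzb, fun _ => ?_⟩
    subst hzb
    refine pQb _ _ _ _ _ _ (mem_cut_one.1 ((hv z).2 (Or.inr (Or.inr rfl))))
      (hb _ (Or.inl rfl)) (hb _ (Or.inr rfl)) (hTx _) (hTx _) ?_
    by_contra h
    rcases (hX z).1 (mem_cut.2 h) with h' | h'
    · exact h1b h'.symm
    · exact h2b h'.symm
  · refine ⟨fun h => absurd ?_ h, fun h => absurd h hzb⟩
    by_cases hza : z = a
    · subst hza
      exact pQa _ _ _ _ _ _ (mem_cut_one.1 ((hv z).2 (Or.inr (Or.inl rfl))))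
        (ha _ (Or.inl rfl)) (ha _ (Or.inr rfl))
    · by_cases hz1 : z = e₁
      · subst hz1
        exact pQ1 _ _ _ _ _ _ (mem_cut_one.1 ((hv z).2 (Or.inl rfl))) (hTx _) (hTx _)
          (mem_cut.1 ((hX z).2 (Or.inl rfl)))
      · by_cases hz2 : z = e₂
        · subst hz2
          exact pQ2 _ _ _ _ _ _ (he _ (Or.inl rfl)) (he _ (Or.inr rfl))
        · refine pQ3 _ _ _ _ _ _ ?_ ?_ (fun h1 h2 => hz z h1 h2 hza hzb)
          · by_contra h
            rcases (hv z).1 (mem_cut_one.2 h) with h' | h' | h'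
            · exact hz1 h'
            · exact hza h'
            · exact hzb h'
          · by_contra h
            rcases (hX z).1 (mem_cut.2 h) with h' | h'
            · exact hz1 h'
            · exact hz2 h'

lemma corner {G : OrGraph V E} (hG : G.Bridgeless) {X : Finset V} {x : V} (hx : x ∈ X)
    {e₁ e₂ a b : E} (hX : ∀ z, z ∈ G.cut X ↔ z = e₁ ∨ z = e₂)
    (hv : ∀ z, z ∈ G.cut {x} ↔ z = e₁ ∨ z = a ∨ z = b)
    (h1a : e₁ ≠ a) (h1b : e₁ ≠ b) (hab : a ≠ b) (h2a : e₂ ≠ a) (h2b : e₂ ≠ b) {Z : Finset V}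
    (ha : ∀ v, (v = G.t a ∨ v = G.h a) → v ≠ x → v ∈ Z)
    (hb : ∀ v, (v = G.t b ∨ v = G.h b) → v ≠ x → v ∉ Z)
    (hz : ∀ z, G.t z ∈ X → G.h z ∈ X → z ≠ a → z ≠ b → (G.t z ∈ Z ↔ G.h z ∈ Z)) : False := by
  have h2 : ¬ (G.t e₂ ∈ X ↔ G.h e₂ ∈ X) := mem_cut.1 ((hX e₂).2 (Or.inr rfl))
  by_cases h : ∀ v, (v = G.t e₂ ∨ v = G.h e₂) → v ∈ X → v ∈ Z
  · exact corner1 hG hx hX hv h1b hab h2b ha hb hz h
  · refine corner1 hG hx hX (a := b) (b := a) (Z := Zᶜ)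
      (fun z => (hv z).trans (or_congr Iff.rfl or_comm)) h1a hab.symm h2a
      (fun v h1 h2 => mem_compl.2 (hb v h1 h2)) (fun v h1 h2 h3 => mem_compl.1 h3 (ha v h1 h2))
      (fun z h1 h2 h3 h4 => ?_) ?_
    · rw [mem_compl, mem_compl, hz z h1 h2 h4 h3]
    · push Not at h
      obtain ⟨w, hw1, hw2, hw3⟩ := h
      intro v hv1 hv2
      have hvw : v = w := by
        rcases hw1 with rfl | rfl <;> rcases hv1 with rfl | rfl
        · rfl
        · exact absurd ⟨fun _ => hv2, fun _ => hw2⟩ h2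
        · exact absurd ⟨fun _ => hw2, fun _ => hv2⟩ h2
        · rfl
      rw [hvw, mem_compl]
      exact hw3

/-- the end `x` of `b` is moved to `y` and the end `y` of `c` is moved to `x` -/
def sw (G : OrGraph V E) (x y : V) (b c : E) : OrGraph V E where
  t z := if z = b ∧ G.t z = x then y else if z = c ∧ G.t z = y then x else G.t z
  h z := if z = b ∧ G.h z = x then y else if z = c ∧ G.h z = y then x else G.h z

lemma sw_comm (G : OrGraph V E) (x y : V) {b c : E} (hbc : b ≠ c) :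
    sw G x y b c = sw G y x c b := by
  unfold sw
  congr 1
  · funext z
    by_cases h1 : z = b
    · have h2 : z ≠ c := fun h => hbc (h1.symm.trans h)
      simp [h1, hbc]
    · simp [h1]
  · funext z
    by_cases h1 : z = b
    · have h2 : z ≠ c := fun h => hbc (h1.symm.trans h)
      simp [h1, hbc]
    · simp [h1]

lemma sw_of_ne (G : OrGraph V E) (x y : V) {b c z : E} (h1 : z ≠ b) (h2 : z ≠ c) :
    (sw G x y b c).t z = G.t z ∧ (sw G x y b c).h z = G.h z := by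
  unfold sw
  simp [h1, h2]

lemma sw_eq_iff (G : OrGraph V E) (x y : V) (b c z : E) {v : V} (h1 : v ≠ x) (h2 : v ≠ y) :
    ((sw G x y b c).t z = v ↔ G.t z = v) ∧ ((sw G x y b c).h z = v ↔ G.h z = v) := by
  have key : ∀ (w : V), ((if z = b ∧ w = x then y else if z = c ∧ w = y then x else w) = v ↔
      w = v) := by
    intro w
    split_ifs with h3 h4
    · rw [h3.2]
      exact ⟨fun h => absurd h.symm h2, fun h => absurd h.symm h1⟩
    · rw [h4.2]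
      exact ⟨fun h => absurd h.symm h1, fun h => absurd h.symm h2⟩
    · exact Iff.rfl
  exact ⟨key _, key _⟩

lemma sw_cut_same (G : OrGraph V E) {x y : V} (b c : E) {Z : Finset V} (h : x ∈ Z ↔ y ∈ Z) :
    (sw G x y b c).cut Z = G.cut Z := by
  have key : ∀ (z : E) (w : V), ((if z = b ∧ w = x then y else if z = c ∧ w = y then x else w) ∈ Z
      ↔ w ∈ Z) := by
    intro z w
    split_ifs with h3 h4
    · rw [h3.2]
      exact h.symm
    · rw [h4.2]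
      exact h
    · exact Iff.rfl
  ext z
  rw [mem_cut, mem_cut]
  unfold sw
  rw [key z, key z]

/-- no edge cut with one or two edges separates `x` and `y` after the switch -/
lemma sw_case {G : OrGraph V E} (hG : G.Bridgeless) {X : Finset V} {x y : V} (hx : x ∈ X)
    (hy : y ∉ X) {e₁ e₂ a b c : E} (hX : ∀ z, z ∈ G.cut X ↔ z = e₁ ∨ z = e₂)
    (hv : ∀ z, z ∈ G.cut {x} ↔ z = e₁ ∨ z = a ∨ z = b) (hc : c ∈ G.cut {y})
    (h1a : e₁ ≠ a) (h1b : e₁ ≠ b) (hab : a ≠ b) (h2a : e₂ ≠ a) (h2b : e₂ ≠ b) {Z : Finset V}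
    (hxZ : x ∈ Z) (hyZ : y ∉ Z) {f : E} (hf : ¬ (G.t f ∈ X ∧ G.h f ∈ X))
    (hcut : ∀ z, z ∈ (sw G x y b c).cut Z → z = e₁ ∨ z = f) : False := by
  have hinc : ∀ z, (G.t z ∈ X ∧ G.h z ∈ X) → z ≠ c := by
    rintro z h rfl
    rw [mem_cut_one] at hc
    apply hc
    exact ⟨fun h' => absurd (h' ▸ h.1) hy, fun h' => absurd (h' ▸ h.2) hy⟩
  have hin : ∀ z, z ∈ G.cut {x} → z ≠ e₁ → z ≠ e₂ → (G.t z ∈ X ∧ G.h z ∈ X) := by
    intro z h1 h2 h3
    have h4 : (G.t z ∈ X ↔ G.h z ∈ X) := by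
      by_contra h
      rcases (hX z).1 (mem_cut.2 h) with h' | h'
      · exact h2 h'
      · exact h3 h'
    rw [mem_cut_one] at h1
    by_cases h5 : G.t z = x
    · exact ⟨h5 ▸ hx, h4.1 (h5 ▸ hx)⟩
    · by_cases h6 : G.h z = x
      · exact ⟨h4.2 (h6 ▸ hx), h6 ▸ hx⟩
      · exact absurd ⟨fun h => absurd h h5, fun h => absurd h h6⟩ h1
  have hma := (hv a).2 (Or.inr (Or.inl rfl))
  have hmb := (hv b).2 (Or.inr (Or.inr rfl))
  have hina := hin a hma h1a.symm h2a.symm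
  have hinb := hin b hmb h1b.symm h2b.symm
  have hout : ∀ z, (G.t z ∈ X ∧ G.h z ∈ X) → z ∉ (sw G x y b c).cut Z := by
    intro z h1 h2
    rcases hcut z h2 with rfl | rfl
    · exact mem_cut.1 ((hX z).2 (Or.inl rfl)) ⟨fun _ => h1.2, fun _ => h1.1⟩
    · exact hf h1
  have hsame : ∀ z, (G.t z ∈ X ∧ G.h z ∈ X) → z ≠ b → (G.t z ∈ Z ↔ G.h z ∈ Z) := by
    intro z h1 h2
    have h3 := hout z h1
    have h4 := sw_of_ne G x y h2 (hinc z h1)
    rw [mem_cut, not_not, h4.1, h4.2] at h3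
    exact h3
  refine corner hG hx hX hv h1a h1b hab h2a h2b (Z := Z) ?_ ?_
    (fun z h1 h2 _ h4 => hsame z ⟨h1, h2⟩ h4)
  · have h1 := hsame a hina hab
    rw [mem_cut_one] at hma
    rintro v (rfl | rfl) hvx
    · have h2 : G.h a = x := by
        by_contra h
        exact hma ⟨fun h' => absurd h' hvx, fun h' => absurd h' h⟩
      rw [h1, h2]
      exact hxZ
    · have h2 : G.t a = x := by
        by_contra h
        exact hma ⟨fun h' => absurd h' h, fun h' => absurd h' hvx⟩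
      rw [← h1, h2]
      exact hxZ
  · have h1 := hout b hinb
    have hbc : b ≠ c := hinc b hinb
    rw [mem_cut, not_not] at h1
    rw [mem_cut_one] at hmb
    rintro v (rfl | rfl) hvx
    · have h2 : G.h b = x := by
        by_contra h
        exact hmb ⟨fun h' => absurd h' hvx, fun h' => absurd h' h⟩
      have h3 : (sw G x y b c).h b = y := by
        unfold sw
        simp [h2]
      have h4 : (sw G x y b c).t b = G.t b := by
        unfold sw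
        simp [hvx, hbc]
      rw [h3, h4] at h1
      exact fun h => hyZ (h1.1 h)
    · have h2 : G.t b = x := by
        by_contra h
        exact hmb ⟨fun h' => absurd h' h, fun h' => absurd h' hvx⟩
      have h3 : (sw G x y b c).t b = y := by
        unfold sw
        simp [h2]
      have h4 : (sw G x y b c).h b = G.h b := by
        unfold sw
        simp [hvx, hbc]
      rw [h3, h4] at h1
      exact fun h => hyZ (h1.2 h)

lemma sw_sep {G : OrGraph V E} (hG : G.Bridgeless) {X : Finset V} {x y : V} (hx : x ∈ X)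
    (hy : y ∉ X) {e₁ e₂ a b c d : E} (hX : ∀ z, z ∈ G.cut X ↔ z = e₁ ∨ z = e₂)
    (hvx : ∀ z, z ∈ G.cut {x} ↔ z = e₁ ∨ z = a ∨ z = b)
    (hvy : ∀ z, z ∈ G.cut {y} ↔ z = e₁ ∨ z = d ∨ z = c)
    (h1a : e₁ ≠ a) (h1b : e₁ ≠ b) (h1c : e₁ ≠ c) (h1d : e₁ ≠ d) (hab : a ≠ b) (hcd : d ≠ c)
    (h2a : e₂ ≠ a) (h2b : e₂ ≠ b) (h2c : e₂ ≠ c) (h2d : e₂ ≠ d) (hbc : b ≠ c) {Z : Finset V}
    (hxZ : x ∈ Z) (hyZ : y ∉ Z) (f : E)
    (hcut : ∀ z, z ∈ (sw G x y b c).cut Z → z = e₁ ∨ z = f) : False := by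
  by_cases hf : G.t f ∈ X ∧ G.h f ∈ X
  · refine sw_case hG (X := Xᶜ) (x := y) (y := x) (mem_compl.2 hy) (by simpa using hx)
      (e₁ := e₁) (e₂ := e₂) (a := d) (b := c) (c := b) (fun z => by rw [cut_compl]; exact hX z)
      hvy ((hvx b).2 (Or.inr (Or.inr rfl))) h1d h1c hcd h2d h2c (Z := Zᶜ) (mem_compl.2 hyZ)
      (by simpa using hxZ) (f := f) (fun h => ?_) (fun z hz => ?_)
    · exact mem_compl.1 h.1 hf.1
    · rw [cut_compl, ← sw_comm G x y hbc] at hz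
      exact hcut z hz
  · exact sw_case hG hx hy hX hvx ((hvy c).2 (Or.inr (Or.inr rfl))) h1a h1b hab h2a h2b hxZ hyZ
      hf hcut

/-- the second edge of a cut with two edges is not incident with an end of the first one -/
lemma second_not_inc {G : OrGraph V E} (hG : G.Bridgeless) {X : Finset V} {x : V} (hx : x ∈ X)
    {e₁ e₂ : E} (hX : ∀ z, z ∈ G.cut X ↔ z = e₁ ∨ z = e₂) (hne : e₁ ≠ e₂)
    (h1 : e₁ ∈ G.cut {x}) (h3 : (G.cut {x}).card = 3) : e₂ ∉ G.cut {x} := by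
  intro h2
  obtain ⟨a, ha⟩ : ∃ a, G.cut {x} \ {e₁, e₂} = {a} := by
    rw [← card_eq_one, card_sdiff_of_subset, h3, card_pair hne]
    intro z hz
    rw [mem_insert, mem_singleton] at hz
    rcases hz with rfl | rfl
    · exact h1
    · exact h2
  apply (bridgeless_iff G).1 hG (X.erase x) a
  ext z
  have h4 : z ∈ G.cut {x} \ {e₁, e₂} ↔ z ∈ ({a} : Finset E) := by rw [ha]
  rw [mem_sdiff, mem_insert, mem_singleton] at h4
  rw [← h4, mem_cut, mem_erase, mem_erase, ← hX z, Ne, Ne,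
    pX _ _ _ _ (fun h => h ▸ hx) (fun h => h ▸ hx), ← mem_cut, ← mem_cut_one]
  constructor
  · intro h
    by_cases h5 : z ∈ G.cut X
    · exfalso
      apply h
      refine ⟨fun _ => ?_, fun _ => h5⟩
      rcases (hX z).1 h5 with rfl | rfl
      · exact h1
      · exact h2
    · refine ⟨?_, h5⟩
      by_contra h6
      exact h ⟨fun h' => absurd h' h5, fun h' => absurd h' h6⟩
  · rintro ⟨h5, h6⟩ h7
    exact h6 (h7.2 h5)

end Pool.Agent.Q234.HF
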