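import Mathlib
import Pool.Agent.Q234.HF.Ind

/-! # The irreducible graphs without their loops -/

set_option autoImplicit false
set_option linter.unusedSectionVars false

namespace Pool.Agent.Q234.HF
open Finset Pool.Agent.H160R2.HF Pool.Agent.H160R2.HF.OrGraph

variable {V E : Type*} [Fintype V] [Fintype E] [DecidableEq V] [DecidableEq E]

/-- Every edge cut between two nonempty sides has at least three edges. -/
def ThreeEdgeConnected (G : OrGraph V E) : Prop :=
  ∀ X : Finset V, X.Nonempty → X ≠ univ → 3 ≤ (G.cut X).card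

/-- Every nonempty set of edges in which all degrees are even (in particular every circuit) has at
least five edges. -/
def GirthAtLeastFive (G : OrGraph V E) : Prop :=
  ∀ C : Finset E, C.Nonempty → (∀ v, Even (G.deg C v)) → 5 ≤ C.card

/-- another edge at a vertex -/
lemma next {G : OrGraph V E} (hl : ∀ e, G.t e ≠ G.h e) {C : Finset E}
    (hC : ∀ v, Even (G.deg C v)) {e : E} (he : e ∈ C) {u v : V} (h : Joins G e u v) :
    ∃ e' ∈ C, e' ≠ e ∧ ∃ w, w ≠ v ∧ Joins G e' v w := by
  by_contra hcon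
  push Not at hcon
  have h1 : ∀ e' ∈ C, e' ≠ e → G.t e' ≠ v ∧ G.h e' ≠ v := by
    intro e' h2 h3
    constructor
    · intro h4
      exact hcon e' h2 h3 (G.h e') (fun h5 => hl e' (h4.trans h5.symm)) (Or.inl ⟨h4, rfl⟩)
    · intro h4
      exact hcon e' h2 h3 (G.t e') (fun h5 => hl e' (h5.trans h4.symm)) (Or.inr ⟨rfl, h4⟩)
  have h2 := hC v
  unfold OrGraph.deg at h2
  rcases h with ⟨h3, h4⟩ | ⟨h3, h4⟩
  · have h5 : C.filter (fun e => G.t e = v) = ∅ := by
      rw [filter_eq_empty_iff]
      intro x hx hxv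
      by_cases hxe : x = e
      · subst hxe
        exact hl x (hxv.trans h4.symm)
      · exact (h1 x hx hxe).1 hxv
    have h6 : C.filter (fun e => G.h e = v) = {e} := by
      ext x
      rw [mem_filter, mem_singleton]
      constructor
      · rintro ⟨hx, hxv⟩
        by_contra hxe
        exact (h1 x hx hxe).2 hxv
      · rintro rfl
        exact ⟨he, h4⟩
    rw [h5, h6] at h2
    simp at h2
  · have h5 : C.filter (fun e => G.h e = v) = ∅ := by
      rw [filter_eq_empty_iff]
      intro x hx hxv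
      by_cases hxe : x = e
      · subst hxe
        exact hl x (h3.trans hxv.symm)
      · exact (h1 x hx hxe).2 hxv
    have h6 : C.filter (fun e => G.t e = v) = {e} := by
      ext x
      rw [mem_filter, mem_singleton]
      constructor
      · rintro ⟨hx, hxv⟩
        by_contra hxe
        exact (h1 x hx hxe).1 hxv
      · rintro rfl
        exact ⟨he, h3⟩
    rw [h5, h6] at h2
    simp at h2

lemma girth_of {G : OrGraph V E} (hl : ∀ e, G.t e ≠ G.h e)
    (two : ∀ e₁ e₂ u₁ u₂, u₁ ≠ u₂ → Joins G e₁ u₁ u₂ → Joins G e₂ u₂ u₁ → e₁ = e₂)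
    (three : ∀ e₁ e₂ e₃ u₁ u₂ u₃, u₁ ≠ u₂ → u₁ ≠ u₃ → u₂ ≠ u₃ → Joins G e₁ u₁ u₂ →
      Joins G e₂ u₂ u₃ → Joins G e₃ u₃ u₁ → False)
    (four : ∀ e₁ e₂ e₃ e₄ u₁ u₂ u₃ u₄, u₁ ≠ u₂ → u₁ ≠ u₃ → u₁ ≠ u₄ → u₂ ≠ u₃ → u₂ ≠ u₄ →
      u₃ ≠ u₄ → Joins G e₁ u₁ u₂ → Joins G e₂ u₂ u₃ → Joins G e₃ u₃ u₄ → Joins G e₄ u₄ u₁ →
      False) : GirthAtLeastFive G := by
  intro C hne hC
  obtain ⟨e₁, he₁⟩ := hne
  obtain ⟨u₁, u₂, h12, j1⟩ : ∃ u₁ u₂, u₁ ≠ u₂ ∧ Joins G e₁ u₁ u₂ :=
    ⟨G.t e₁, G.h e₁, hl e₁, joins_ends G e₁⟩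
  obtain ⟨e₂, he₂, n21, u₃, h32, j2⟩ := next hl hC he₁ j1
  have h31 : u₃ ≠ u₁ := by
    rintro rfl
    exact n21 (two _ _ _ _ h12 j1 j2).symm
  obtain ⟨e₃, he₃, n32, u₄, h43, j3⟩ := next hl hC he₂ j2
  have h42 : u₄ ≠ u₂ := by
    rintro rfl
    exact n32 (two _ _ _ _ h32.symm j2 j3).symm
  have h41 : u₄ ≠ u₁ := by
    rintro rfl
    exact three _ _ _ _ _ _ h12 h31.symm h32.symm j1 j2 j3
  obtain ⟨e₄, he₄, n43, u₅, h54, j4⟩ := next hl hC he₃ j3
  have h53 : u₅ ≠ u₃ := by
    rintro rfl
    exact n43 (two _ _ _ _ h43.symm j3 j4).symm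
  have h52 : u₅ ≠ u₂ := by
    rintro rfl
    exact three _ _ _ _ _ _ h32.symm h42.symm h43.symm j2 j3 j4
  have h51 : u₅ ≠ u₁ := by
    rintro rfl
    exact four _ _ _ _ _ _ _ _ h12 h31.symm h41.symm h32.symm h42.symm h43.symm j1 j2 j3 j4
  obtain ⟨e₅, he₅, n54, u₆, h65, j5⟩ := next hl hC he₄ j4
  have e12 : e₁ ≠ e₂ := n21.symm
  have e13 : e₁ ≠ e₃ := j1.ne_of j3 (fun h => h31 h.1.symm) (fun h => h41 h.1.symm)
  have e14 : e₁ ≠ e₄ := j1.ne_of j4 (fun h => h41 h.1.symm) (fun h => h51 h.1.symm)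
  have e15 : e₁ ≠ e₅ := (j5.ne_of j1 (fun h => h51 h.1) (fun h => h52 h.1)).symm
  have e23 : e₂ ≠ e₃ := n32.symm
  have e24 : e₂ ≠ e₄ := j2.ne_of j4 (fun h => h42 h.1.symm) (fun h => h52 h.1.symm)
  have e25 : e₂ ≠ e₅ := (j5.ne_of j2 (fun h => h52 h.1) (fun h => h53 h.1)).symm
  have e34 : e₃ ≠ e₄ := n43.symm
  have e35 : e₃ ≠ e₅ := (j5.ne_of j3 (fun h => h53 h.1) (fun h => h54 h.1)).symm
  have e45 : e₄ ≠ e₅ := n54.symm
  have hsub : ({e₁, e₂, e₃, e₄, e₅} : Finset E) ⊆ C := by
    intro x hx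
    simp only [mem_insert, mem_singleton] at hx
    rcases hx with rfl | rfl | rfl | rfl | rfl <;> assumption
  refine le_trans ?_ (card_le_card hsub)
  rw [card_insert_of_notMem, card_insert_of_notMem, card_insert_of_notMem, card_pair e45]
  · simp [e34, e35]
  · simp [e23, e24, e25]
  · simp [e12, e13, e14, e15]

/-- the graph without loops and isolated vertices -/
def core (G : OrGraph V E) :
    OrGraph {v : V // (G.cut {v}).Nonempty} {e : E // G.t e ≠ G.h e} where
  t e := ⟨G.t e.1, ⟨e.1, (joins_ends G e.1).mem_cut_one e.2⟩⟩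
  h e := ⟨G.h e.1, ⟨e.1, (joins_ends G e.1).symm'.mem_cut_one e.2.symm⟩⟩

lemma core_joins {G : OrGraph V E} {e : {e : E // G.t e ≠ G.h e}}
    {u w : {v : V // (G.cut {v}).Nonempty}} (h : Joins (core G) e u w) :
    Joins G e.1 u.1 w.1 := by
  rcases h with ⟨h1, h2⟩ | ⟨h1, h2⟩
  · exact Or.inl ⟨congrArg Subtype.val h1, congrArg Subtype.val h2⟩
  · exact Or.inr ⟨congrArg Subtype.val h1, congrArg Subtype.val h2⟩

lemma core_cut (G : OrGraph V E) (X : Finset {v : V // (G.cut {v}).Nonempty}) :
    ((core G).cut X).map (Function.Embedding.subtype _) =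
      G.cut (X.map (Function.Embedding.subtype _)) := by
  have key : ∀ (v : {v : V // (G.cut {v}).Nonempty}),
      v.1 ∈ X.map (Function.Embedding.subtype _) ↔ v ∈ X := by
    intro v
    rw [mem_map]
    constructor
    · rintro ⟨w, hw, h⟩
      have : w = v := Subtype.ext h
      exact this ▸ hw
    · intro h
      exact ⟨v, h, rfl⟩
  ext e
  rw [mem_map]
  constructor
  · rintro ⟨e', he', rfl⟩
    rw [mem_cut] at he' ⊢
    rw [← key, ← key] at he'
    exact he'
  · intro he
    rw [mem_cut] at he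
    have hl : G.t e ≠ G.h e := by
      intro h
      rw [h] at he
      exact he Iff.rfl
    refine ⟨⟨e, hl⟩, ?_, rfl⟩
    rw [mem_cut, ← key, ← key]
    exact he

lemma core_card (G : OrGraph V E) (X : Finset {v : V // (G.cut {v}).Nonempty}) :
    ((core G).cut X).card = (G.cut (X.map (Function.Embedding.subtype _))).card := by
  rw [← core_cut, card_map]

lemma deg_eq_cut {G : OrGraph V E} (hl : ∀ e, G.t e ≠ G.h e) (v : V) :
    G.deg univ v = (G.cut {v}).card := by
  unfold OrGraph.deg
  rw [← card_union_of_disjoint]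
  · congr 1
    ext e
    rw [mem_union, mem_filter, mem_filter, mem_cut_one]
    have := hl e
    constructor
    · rintro (⟨-, h⟩ | ⟨-, h⟩) h'
      · exact this (h.trans (h'.1 h).symm)
      · exact this ((h'.2 h).trans h.symm)
    · intro h
      by_cases h1 : G.t e = v
      · exact Or.inl ⟨mem_univ _, h1⟩
      · refine Or.inr ⟨mem_univ _, ?_⟩
        by_contra h2
        exact h ⟨fun h' => absurd h' h1, fun h' => absurd h' h2⟩
  · rw [disjoint_filter]
    intro e _ h1 h2
    exact hl e (h1.trans h2.symm)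

lemma base_card {G : OrGraph V E} (hB : Base G) (v : V) (hv : (G.cut {v}).Nonempty) :
    (G.cut {v}).card = 3 := by
  have h1 := hB.deg v
  have h2 := hB.no2 {v}
  have h3 := card_ne_one hB.br {v}
  have h4 := card_pos.2 hv
  omega

theorem core_spec {G : OrGraph V E} (hB : Base G) :
    (core G).Cubic ∧ ThreeEdgeConnected (core G) ∧ GirthAtLeastFive (core G) := by
  have hl : ∀ e, (core G).t e ≠ (core G).h e := fun e h => e.2 (congrArg Subtype.val h)
  refine ⟨?_, ?_, ?_⟩
  · intro v
    rw [deg_eq_cut hl v, core_card]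
    simp only [map_singleton, Function.Embedding.subtype_apply]
    exact base_card hB v.1 v.2
  · intro X hX hX'
    rw [core_card]
    obtain ⟨Y, hY⟩ : ∃ Y, Y = X.map (Function.Embedding.subtype _) := ⟨_, rfl⟩
    rw [← hY]
    have h2 := hB.no2 Y
    have h3 := card_ne_one hB.br Y
    have h4 : (G.cut Y).card ≠ 0 := by
      intro h
      rw [card_eq_zero] at h
      rcases hB.conn Y h with h5 | h5
      · obtain ⟨v, hv⟩ := hX
        obtain ⟨e, he⟩ := v.2
        have h6 : v.1 ∈ Y := by
          rw [hY, mem_map]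
          exact ⟨v, hv, rfl⟩
        have h7 := mem_cut_one.1 he
        have h8 : (G.t e ∈ Y ↔ G.h e ∈ Y) := by
          by_contra h9
          have := mem_cut.2 h9
          rw [h] at this
          simp at this
        have h9 : G.t e ∈ Y := by
          by_cases h10 : G.t e = v.1
          · rw [h10]; exact h6
          · have h11 : G.h e = v.1 := by
              by_contra h12
              exact h7 ⟨fun h' => absurd h' h10, fun h' => absurd h' h12⟩
            rw [h8, h11]
            exact h6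
        have h10 := h5 e h9
        rw [h10] at h7
        exact h7 Iff.rfl
      · apply hX'
        rw [eq_univ_iff_forall]
        intro v
        by_contra hv
        obtain ⟨e, he⟩ := v.2
        have h6 : v.1 ∉ Y := by
          rw [hY, mem_map]
          rintro ⟨w, hw, h⟩
          have : w = v := Subtype.ext h
          exact hv (this ▸ hw)
        have h7 := mem_cut_one.1 he
        have h8 : (G.t e ∈ Y ↔ G.h e ∈ Y) := by
          by_contra h9
          have := mem_cut.2 h9
          rw [h] at this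
          simp at this
        have h9 : G.t e ∉ Y := by
          by_cases h10 : G.t e = v.1
          · rw [h10]; exact h6
          · have h11 : G.h e = v.1 := by
              by_contra h12
              exact h7 ⟨fun h' => absurd h' h10, fun h' => absurd h' h12⟩
            rw [h8, h11]
            exact h6
        have h10 := h5 e h9
        rw [h10] at h7
        exact h7 Iff.rfl
    omega
  · refine girth_of hl ?_ ?_ ?_
    · intro e₁ e₂ u₁ u₂ hu h1 h2
      exact Subtype.ext (hB.two _ _ _ _ (fun h => hu (Subtype.ext h)) (core_joins h1)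
        (core_joins h2))
    · intro e₁ e₂ e₃ u₁ u₂ u₃ h12 h13 h23 h1 h2 h3
      exact hB.three _ _ _ _ _ _ (fun h => h12 (Subtype.ext h)) (fun h => h13 (Subtype.ext h))
        (fun h => h23 (Subtype.ext h)) (core_joins h1) (core_joins h2) (core_joins h3)
    · intro e₁ e₂ e₃ e₄ u₁ u₂ u₃ u₄ h12 h13 h14 h23 h24 h34 h1 h2 h3 h4
      exact hB.four _ _ _ _ _ _ _ _ (fun h => h12 (Subtype.ext h)) (fun h => h13 (Subtype.ext h))
        (fun h => h14 (Subtype.ext h)) (fun h => h23 (Subtype.ext h))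
        (fun h => h24 (Subtype.ext h)) (fun h => h34 (Subtype.ext h)) (core_joins h1)
        (core_joins h2) (core_joins h3) (core_joins h4)

lemma good_core {G : OrGraph V E} (h : Good (core G)) : Good G := by
  obtain ⟨ψ, hψ, ho⟩ := h
  refine ⟨fun e => if h : G.t e ≠ G.h e then ψ ⟨e, h⟩ else (1, 0), fun v => ?_, fun e => ?_⟩
  · have hsplit : gn G (fun e => if h : G.t e ≠ G.h e then ψ ⟨e, h⟩ else (1, 0)) v =
        ∑ e : {e : E // G.t e ≠ G.h e}, ((if G.t e.1 = v then ψ e else 0) -
          (if G.h e.1 = v then ψ e else 0)) := by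
      unfold gn
      rw [← Finset.sum_filter_add_sum_filter_not univ (fun e => G.t e ≠ G.h e)]
      rw [Finset.sum_eq_zero (s := univ.filter fun e => ¬ (G.t e ≠ G.h e)), add_zero]
      · rw [← Finset.sum_subtype_of_mem (p := fun e => G.t e ≠ G.h e)]
        · refine Finset.sum_congr ?_ ?_
          · ext x
            simp [x.2]
          · intro x _
            simp [x.2]
        · intro x hx
          exact (mem_filter.1 hx).2
      · intro x hx
        rw [mem_filter, not_not] at hx
        simp [hx.2]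
    rw [hsplit]
    by_cases hv : (G.cut {v}).Nonempty
    · refine Eq.trans ?_ (hψ ⟨v, hv⟩)
      unfold gn
      refine Finset.sum_congr rfl fun e _ => ?_
      have h1 : (core G).t e = ⟨v, hv⟩ ↔ G.t e.1 = v := Subtype.ext_iff
      have h2 : (core G).h e = ⟨v, hv⟩ ↔ G.h e.1 = v := Subtype.ext_iff
      simp only [h1, h2]
    · refine Finset.sum_eq_zero fun e _ => ?_
      have h1 : G.t e.1 ≠ v := by
        rintro rfl
        exact hv ⟨e.1, (joins_ends G e.1).mem_cut_one e.2⟩
      have h2 : G.h e.1 ≠ v := by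
        rintro rfl
        exact hv ⟨e.1, (joins_ends G e.1).symm'.mem_cut_one e.2.symm⟩
      simp [h1, h2]
  · by_cases h : G.t e ≠ G.h e
    · simp only [h, dite_true, ne_eq, not_false_eq_true]
      exact ho _
    · simp only [h, dite_false]
      decide

end Pool.Agent.Q234.HF
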