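import Mathlib
import Pool.Agent.Q234.HF.Ind

/-! # Replacing the vertices by circuits -/

set_option autoImplicit false
set_option linter.unusedSectionVars false

namespace Pool.Agent.Q234.HF
open Finset Pool.Agent.H160R2.HF Pool.Agent.H160R2.HF.OrGraph

variable {V E : Type*} [Fintype V] [Fintype E] [DecidableEq V] [DecidableEq E]

/-- the end of a dart -/
def en (G : OrGraph V E) (d : E × Bool) : V := if d.2 then G.h d.1 else G.t d.1

/-- the darts at a vertex can be ordered cyclically -/
lemma exists_sigma (G : OrGraph V E) : ∃ σ : Equiv.Perm (E × Bool), (∀ d, en G (σ d) = en G d) ∧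
    ∀ X : Finset (E × Bool), (∀ d, d ∈ X ↔ σ d ∈ X) → ∀ d d', en G d = en G d' →
      (d ∈ X ↔ d' ∈ X) := by
  have h0 : ∀ v : V, ∃ f : Equiv.Perm (E × Bool),
      f.IsCycleOn (univ.filter fun d => en G d = v : Finset (E × Bool)) := fun v =>
    let ⟨f, hf, _⟩ := Finset.exists_cycleOn (univ.filter fun d => en G d = v)
    ⟨f, hf⟩
  choose f hf using h0
  have hmap : ∀ v d, en G d = v → en G (f v d) = v := by
    intro v d hd
    have h1 := (hf v).1.mapsTo (x := d) (by simpa using hd)
    simpa using h1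
  have hinj : Function.Injective (fun d => f (en G d) d) := by
    intro d d' h
    have h1 := hmap (en G d) d rfl
    have h2 := hmap (en G d') d' rfl
    simp only at h
    rw [h, h2] at h1
    rw [h1] at h
    exact (f (en G d)).injective h
  refine ⟨Equiv.ofBijective _ (Finite.injective_iff_bijective.1 hinj), fun d => hmap _ _ rfl, ?_⟩
  intro X hX d d' hdd
  have hX' : ∀ c, en G c = en G d → (c ∈ X ↔ f (en G d) c ∈ X) := by
    intro c hc
    have h1 := hX c
    simp only [Equiv.ofBijective_apply, hc] at h1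
    exact h1
  have hpow : ∀ n : ℕ, en G ((f (en G d) ^ n) d) = en G d ∧
      (d ∈ X ↔ (f (en G d) ^ n) d ∈ X) := by
    intro n
    induction n with
    | zero => simp
    | succ n ih =>
      rw [pow_succ', Equiv.Perm.mul_apply]
      exact ⟨hmap _ _ ih.1, ih.2.trans (hX' _ ih.1)⟩
  have hs : (f (en G d)).SameCycle d d' := (hf (en G d)).2 (by simp) (by simpa using hdd.symm)
  obtain ⟨n, hn⟩ := hs.exists_nat_pow_eq
  rw [← hn]
  exact (hpow n).2

/-- every vertex is replaced by a circuit -/
def expand (_G : OrGraph V E) (σ : Equiv.Perm (E × Bool)) : OrGraph (E × Bool) (E ⊕ (E × Bool)) where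
  t := Sum.elim (fun e => (e, false)) id
  h := Sum.elim (fun e => (e, true)) σ

lemma expand_deg (G : OrGraph V E) (σ : Equiv.Perm (E × Bool)) (d : E × Bool) :
    ((expand G σ).cut {d}).card ≤ 3 := by
  refine (card_le_card (t := {Sum.inl d.1, Sum.inr d, Sum.inr (σ.symm d)}) ?_).trans card_le_three
  intro z hz
  rw [mem_cut_one] at hz
  rw [mem_insert, mem_insert, mem_singleton]
  rcases z with e | c
  · refine Or.inl ?_
    by_cases h1 : (e, false) = d
    · rw [← h1]
    · by_cases h2 : (e, true) = d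
      · rw [← h2]
      · exact absurd ⟨fun h => absurd h h1, fun h => absurd h h2⟩ hz
  · refine Or.inr ?_
    by_cases h1 : c = d
    · exact Or.inl (by rw [h1])
    · by_cases h2 : σ c = d
      · exact Or.inr (by rw [← h2, Equiv.symm_apply_apply])
      · exact absurd ⟨fun h => absurd h h1, fun h => absurd h h2⟩ hz

lemma expand_bridgeless {G : OrGraph V E} (hG : G.Bridgeless) {σ : Equiv.Perm (E × Bool)}
    (hσ : ∀ X : Finset (E × Bool), (∀ d, d ∈ X ↔ σ d ∈ X) → ∀ d d', en G d = en G d' →
      (d ∈ X ↔ d' ∈ X)) : (expand G σ).Bridgeless := by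
  rw [bridgeless_iff] at hG ⊢
  intro X z hz
  have hm : ∀ y, ¬ ((expand G σ).t y ∈ X ↔ (expand G σ).h y ∈ X) ↔ y = z := by
    intro y
    rw [← mem_cut, hz, mem_singleton]
  rcases z with e | c
  · have h1 : ∀ d, d ∈ X ↔ σ d ∈ X := by
      intro d
      by_contra h
      exact Sum.inr_ne_inl ((hm (Sum.inr d)).1 h)
    have h2 := hσ X h1
    apply hG (univ.filter fun v => ∃ d, en G d = v ∧ d ∈ X) e
    have h3 : ∀ d, (en G d ∈ (univ.filter fun v => ∃ d, en G d = v ∧ d ∈ X) ↔ d ∈ X) := by
      intro d
      rw [mem_filter]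
      constructor
      · rintro ⟨-, d', h4, h5⟩
        exact (h2 _ _ h4).1 h5
      · intro h
        exact ⟨mem_univ _, d, rfl, h⟩
    ext y
    rw [mem_cut, mem_singleton]
    have h4 : G.t y ∈ (univ.filter fun v => ∃ d, en G d = v ∧ d ∈ X) ↔ (y, false) ∈ X :=
      h3 (y, false)
    have h5 : G.h y ∈ (univ.filter fun v => ∃ d, en G d = v ∧ d ∈ X) ↔ (y, true) ∈ X :=
      h3 (y, true)
    rw [h4, h5]
    have h6 := hm (Sum.inl y)
    rw [Sum.inl.injEq] at h6
    exact h6
  · have h1 : ∀ d, d ≠ c → (d ∈ X ↔ σ d ∈ X) := by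
      intro d hd
      by_contra h
      exact hd (Sum.inr.inj ((hm (Sum.inr d)).1 h))
    have h2 : ¬ (c ∈ X ↔ σ c ∈ X) := (hm (Sum.inr c)).2 rfl
    have h3 : (univ.filter fun d => σ d ∈ X).card = X.card := by
      rw [← card_map σ.toEmbedding]
      congr 1
      ext d
      simp only [mem_map, mem_filter, mem_univ, true_and, Equiv.coe_toEmbedding]
      constructor
      · rintro ⟨a, ha, rfl⟩
        exact ha
      · intro h
        exact ⟨σ.symm d, by simpa using h, by simp⟩
    by_cases hc : c ∈ X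
    · have h4 : (univ.filter fun d => σ d ∈ X) = X.erase c := by
        ext d
        rw [mem_filter, mem_erase]
        by_cases hd : d = c
        · subst hd
          constructor
          · rintro ⟨-, h⟩
            exact absurd ⟨fun _ => h, fun _ => hc⟩ h2
          · rintro ⟨h, -⟩
            exact absurd rfl h
        · rw [h1 d hd]
          exact ⟨fun h => ⟨hd, h.2⟩, fun h => ⟨mem_univ _, h.2⟩⟩
      rw [h4, card_erase_of_mem hc] at h3
      have h5 : 0 < X.card := card_pos.2 ⟨c, hc⟩
      omega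
    · have hs : σ c ∈ X := by
        by_contra h
        exact h2 ⟨fun h' => absurd h' hc, fun h' => absurd h' h⟩
      have h4 : (univ.filter fun d => σ d ∈ X) = insert c X := by
        ext d
        rw [mem_filter, mem_insert]
        by_cases hd : d = c
        · subst hd
          exact ⟨fun _ => Or.inl rfl, fun _ => ⟨mem_univ _, hs⟩⟩
        · rw [h1 d hd]
          exact ⟨fun h => Or.inr h.2, fun h => ⟨mem_univ _, h.resolve_left hd⟩⟩
      rw [h4, card_insert_of_notMem hc] at h3
      omega

lemma good_expand {G : OrGraph V E} {σ : Equiv.Perm (E × Bool)} (hσ : ∀ d, en G (σ d) = en G d)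
    (h : Good (expand G σ)) : Good G := by
  obtain ⟨ψ, hψ, ho⟩ := h
  refine ⟨fun e => ψ (Sum.inl e), fun v => ?_, fun e => ho _⟩
  have h1 : ∑ d ∈ univ.filter (fun d => en G d = v), gn (expand G σ) ψ d = 0 :=
    Finset.sum_eq_zero fun d _ => hψ d
  refine Eq.trans ?_ h1
  unfold gn
  rw [Finset.sum_comm, Fintype.sum_sum_type]
  rw [Finset.sum_eq_zero (s := (univ : Finset (E × Bool))), add_zero]
  · refine Finset.sum_congr rfl fun e _ => ?_
    rw [Finset.sum_sub_distrib, Finset.sum_ite_eq, Finset.sum_ite_eq]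
    unfold expand en
    simp
  · intro d _
    rw [Finset.sum_sub_distrib, Finset.sum_ite_eq, Finset.sum_ite_eq]
    have h2 : (expand G σ).t (Sum.inr d) = d := rfl
    have h3 : (expand G σ).h (Sum.inr d) = σ d := rfl
    rw [h2, h3]
    simp [hσ d]

end Pool.Agent.Q234.HF
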